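import Mathlib
import Pool.Agent.U737.MN.Done
import Pool.Agent.U880.MB.Real

/-!
Lower bounds for the numbers of fields with wreath products as Galois groups.
-/

set_option autoImplicit false
set_option linter.all false

open NumberField Filter Topology

namespace Pool.Agent.U880.ET

open Pool.Agent.TH444.ML (dsc Cnt HasGp nf_of_fd dsc_eq AS)
open Pool.Agent.U737.MN (Gal TT SM BM nc IsC2Wr)

/-! ### Counting up to isomorphism -/

theorem quot_ge {α : Type} [Finite α] {r : α → α → Prop} (hr : Equivalence r) (d : ℕ)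
    (h : ∀ a, Nat.card {b // r b a} ≤ d) : Nat.card α ≤ d * Nat.card (Quot r) := by
  classical
  have := Fintype.ofFinite α
  have : Finite (Quot r) := Finite.of_surjective (Quot.mk r) (Quot.mk_surjective)
  have := Fintype.ofFinite (Quot r)
  have h1 := Finset.card_le_mul_card_image_of_maps_to (f := Quot.mk r) (s := Finset.univ)
    (t := Finset.univ) (fun _ _ => Finset.mem_univ _) d (by
      intro b _
      obtain ⟨a, rfl⟩ := Quot.mk_surjective b
      refine le_trans (le_of_eq ?_) (h a)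
      rw [Nat.card_eq_fintype_card, Fintype.card_subtype]
      congr 1
      ext x
      simp only [Finset.mem_filter, Finset.mem_univ, true_and]
      constructor
      · intro hx
        have := Quot.eqvGen_exact hx
        rwa [hr.eqvGen_iff] at this
      · intro hx
        exact Quot.sound hx)
  rw [Nat.card_eq_fintype_card, Nat.card_eq_fintype_card]
  simpa using h1

theorem iso_le {K : Type} [Field K] [NumberField K] (T : Set (IntermediateField K (AlgebraicClosure K)))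
    (d : ℕ) (hd : 0 < d) (hT : ∀ L ∈ T, Module.finrank K L = d) (L : T) :
    Nat.card {L' : T // Nonempty (L'.1 ≃ₐ[K] L.1)} ≤ d := by
  have hfd : FiniteDimensional K L.1 := FiniteDimensional.of_finrank_pos (by rw [hT _ L.2]; exact hd)
  have hcard : Nat.card (L.1 →ₐ[K] AlgebraicClosure K) = d := by
    rw [Nat.card_eq_fintype_card, AlgHom.card, hT _ L.2]
  rw [← hcard]
  refine Nat.card_le_card_of_injective
    (fun L' : {L' : T // Nonempty (L'.1 ≃ₐ[K] L.1)} => (L'.1.1.val).comp (L'.2.some.symm.toAlgHom)) ?_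
  intro L₁ L₂ h
  have e : ∀ L' : {L' : T // Nonempty (L'.1 ≃ₐ[K] L.1)},
      ((L'.1.1.val).comp (L'.2.some.symm.toAlgHom)).fieldRange = L'.1.1 := by
    intro L'
    ext x
    rw [AlgHom.mem_fieldRange]
    constructor
    · rintro ⟨y, rfl⟩
      exact (L'.2.some.symm y).2
    · intro hx
      refine ⟨L'.2.some ⟨x, hx⟩, ?_⟩
      simp
  have h2 : L₁.1.1 = L₂.1.1 := by
    rw [← e L₁, ← e L₂]
    exact congrArg AlgHom.fieldRange h
  exact Subtype.ext (Subtype.ext h2)

/-- the number up to isomorphism -/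
theorem cnt_le {K : Type} [Field K] [NumberField K] (T : Set (IntermediateField K (AlgebraicClosure K)))
    (d : ℕ) (hd : 0 < d) (hT : ∀ L ∈ T, Module.finrank K L = d) (hfin : T.Finite) :
    T.ncard ≤ d * Nat.card (Quot fun L L' : T => Nonempty (L.1 ≃ₐ[K] L'.1)) := by
  have : Finite T := hfin
  rw [← Nat.card_coe_set_eq]
  exact quot_ge ⟨fun L => ⟨AlgEquiv.refl⟩, fun ⟨a⟩ => ⟨a.symm⟩, fun ⟨a⟩ ⟨b⟩ => ⟨a.trans b⟩⟩ d
    (iso_le T d hd hT)

/-- `W` is the Galois group of an extension of `K` -/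
def Occ (K : Type) [Field K] {k : ℕ} (W : Subgroup (Equiv.Perm (Fin k))) : Prop :=
  ∃ M : IntermediateField K (AlgebraicClosure K), FiniteDimensional K M ∧ HasGp K W M

theorem mem_gal {K : Type} [Field K] {k : ℕ} {W : Subgroup (Equiv.Perm (Fin k))}
    {M : IntermediateField K (AlgebraicClosure K)} :
    M ∈ Gal K (AlgebraicClosure K) W (Fin k) ↔ FiniteDimensional K M ∧ HasGp K W M := by
  have e : ∀ π : Equiv.Perm (Fin k), (∃ h : W, ∀ x, π x = h • x) ↔ π ∈ W := by
    intro π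
    constructor
    · rintro ⟨h, hh⟩
      have : π = h.1 := Equiv.ext fun x => hh x
      rw [this]
      exact h.2
    · intro h
      exact ⟨⟨π, h⟩, fun x => rfl⟩
  constructor
  · rintro ⟨h, f, hf⟩
    exact ⟨h, f, fun π => (e π).symm.trans (hf π)⟩
  · rintro ⟨h, f, hf⟩
    exact ⟨h, f, fun π => (e π).trans (hf π)⟩

/-! ### Lower bounds -/

theorem cnt_finite (K : Type) [Field K] [NumberField K] {d : ℕ} (hd : 0 < d)
    (G : Subgroup (Equiv.Perm (Fin d))) (B : ℝ) : (Cnt K G B).Finite := by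
  obtain ⟨C, hC⟩ := Pool.Agent.TH979.J3100.hermiteRel K (AlgebraicClosure K) d
  refine (hC (max 1 (B * ((|discr K| : ℤ) : ℝ) ^ d)) (le_max_left _ _)).1.subset ?_
  rintro L ⟨h1, h2, h3, h4⟩
  refine ⟨FiniteDimensional.of_finrank_pos (by omega), h1, ?_⟩
  rw [dsc_eq L]
  exact h4.trans (le_max_right _ _)

theorem disc_pos (K : Type) [Field K] [NumberField K] (n : ℕ) : 0 < ((|discr K| : ℤ) : ℝ) ^ n := by
  have : (0 : ℤ) < |discr K| := abs_pos.2 (discr_ne_zero K)
  have : (0 : ℝ) < ((|discr K| : ℤ) : ℝ) := by exact_mod_cast this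
  positivity

/-- the group `C₂ ≀ H` -/
theorem low_two (K : Type) [Field K] [NumberField K] (H P : Type) [Group H] [Finite H]
    [MulAction H P] [Finite P] [Nonempty P] [MulAction.IsPretransitive H P] [FaithfulSMul H P]
    (hne : (Gal K (AlgebraicClosure K) H P).Nonempty) {n : ℕ}
    (G : Subgroup (Equiv.Perm (Fin n))) (hG : IsC2Wr H P G) :
    ∃ c : ℝ, 0 < c ∧ ∃ B₀ : ℝ, ∀ B : ℝ, B₀ ≤ B → c * B ≤ (Cnt K G B).ncard := by
  obtain ⟨M, hM⟩ := hne
  have hn : n = 2 * Nat.card P := Pool.Agent.U737.MN.c2wr_n hG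
  have hn0 : 0 < n := by
    have : 0 < Nat.card P := Nat.card_pos
    omega
  obtain ⟨c, hc0, hlim⟩ := Pool.Agent.U737.MN.lim_SM (H := H) (P := P)
    Pool.Agent.U737.MN.inp.quadLim Pool.Agent.U737.MN.inp.quadPos Pool.Agent.U737.MN.inp.quadUnif
    Pool.Agent.U737.MN.inp.badSmall M hM (((|discr K| : ℤ) : ℝ) ^ n) (disc_pos K n)
  have h1 := hlim.eventually (lt_mem_nhds (show c / 2 < c by linarith))
  obtain ⟨B₀, hB₀⟩ := Filter.eventually_atTop.1 h1
  refine ⟨c / 2, by positivity, max B₀ 1, fun B hB => ?_⟩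
  have hB1 : 0 < B := lt_of_lt_of_le one_pos ((le_max_right _ _).trans hB)
  have h2 := hB₀ B ((le_max_left _ _).trans hB)
  rw [lt_div_iff₀ hB1] at h2
  refine h2.le.trans ?_
  have hfin := cnt_finite K hn0 G B
  rw [Pool.Agent.U737.MN.cnt_eq K hG] at hfin ⊢
  refine Nat.cast_le.2 (Set.ncard_le_ncard ?_ hfin)
  rw [Pool.Agent.U737.MN.TT_eq Pool.Agent.U737.MN.inp.wrIff]
  exact Set.subset_iUnion (fun M : Gal K (AlgebraicClosure K) H P =>
    SM H P M.1 (B * ((|discr K| : ℤ) : ℝ) ^ n)) ⟨M, hM⟩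

/-- many fields: the group occurs -/
theorem occ_of {K : Type} [Field K] [NumberField K] {d : ℕ} (hd : 0 < d) {G : Subgroup (Equiv.Perm (Fin d))}
    {c : ℝ} (hc : 0 < c)
    (h : ∃ B₀ : ℝ, ∀ B : ℝ, B₀ ≤ B → c * B ≤ (Cnt K G B).ncard) : Occ K G := by
  obtain ⟨B₀, h⟩ := h
  have h1 := h (max B₀ 1) (le_max_left _ _)
  have h2 : 0 < c * (max B₀ 1) := by
    have : 0 < max B₀ 1 := lt_of_lt_of_le one_pos (le_max_right _ _)
    positivity
  have h3 : (0 : ℝ) < (Cnt K G (max B₀ 1)).ncard := lt_of_lt_of_le h2 h1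
  have h4 : (Cnt K G (max B₀ 1)).Nonempty := by
    rw [Set.nonempty_iff_ne_empty]
    intro h5
    rw [h5, Set.ncard_empty] at h3
    simp at h3
  obtain ⟨L, hL1, hL2, -⟩ := h4
  exact ⟨L, FiniteDimensional.of_finrank_pos (by omega), hL2⟩

theorem transitive_inst {k : ℕ} {W : Subgroup (Equiv.Perm (Fin k))} (hW : ∀ i j : Fin k, ∃ w ∈ W, w i = j) :
    MulAction.IsPretransitive W (Fin k) :=
  ⟨fun i j => by
    obtain ⟨w, hw, h⟩ := hW i j
    exact ⟨⟨w, hw⟩, h⟩⟩

theorem low_two' (K : Type) [Field K] [NumberField K] {k d : ℕ} (hk : 0 < k)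
    {W : Subgroup (Equiv.Perm (Fin k))} (hW : ∀ i j : Fin k, ∃ w ∈ W, w i = j)
    {G : Subgroup (Equiv.Perm (Fin d))} (hO : Occ K W) (hG : IsC2Wr W (Fin k) G) :
    ∃ c : ℝ, 0 < c ∧ ∃ B₀ : ℝ, ∀ B : ℝ, B₀ ≤ B → c * B ≤ (Cnt K G B).ncard := by
  have := transitive_inst hW
  have : Nonempty (Fin k) := ⟨⟨0, hk⟩⟩
  obtain ⟨M, h1, h2⟩ := hO
  exact low_two K W (Fin k) ⟨M, mem_gal.2 ⟨h1, h2⟩⟩ G hG

/-- every group occurs over all large fields -/
theorem base_field {m : ℕ} (hm : 0 < m) (H : Subgroup (Equiv.Perm (Fin m)))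
    (hH : ∀ i j : Fin m, ∃ h ∈ H, h i = j) :
    ∃ (K₀ : Type) (_ : Field K₀) (_ : NumberField K₀), ∀ (K : Type) [Field K] [NumberField K]
      [Algebra K₀ K], Occ K H := by
  have := transitive_inst hH
  have : Nonempty (Fin m) := ⟨⟨0, hm⟩⟩
  obtain ⟨K₀, i4, i5, hK₀⟩ := Pool.Agent.U880.MB.exists_base H
  refine ⟨K₀, i4, i5, fun K _ _ _ => ?_⟩
  obtain ⟨M, hM⟩ := Pool.Agent.U737.MN.inp.exist K (AlgebraicClosure K) H (Fin m) (hK₀ K)
  exact ⟨M, mem_gal.1 hM⟩

/-! ### All quadratic extensions of `M` -/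

section

variable {K Ω : Type} [Field K] [NumberField K] [Field Ω] [Algebra K Ω] [IsAlgClosure K Ω]
variable {H P : Type} [Group H] [Finite H] [MulAction H P] [Finite P] [Nonempty P]
  [MulAction.IsPretransitive H P] [FaithfulSMul H P]

theorem lim_AS (M : IntermediateField K Ω) (hM : M ∈ Gal K Ω H P) (D : ℝ) (hD : 0 < D) :
    ∃ c : ℝ, 0 < c ∧
      Tendsto (fun X : ℝ => (Set.ncard (SM H P M (X * D)) : ℝ) / X) atTop (𝓝 c) ∧
      Tendsto (fun X : ℝ => (Set.ncard {L : IntermediateField K Ω | M ≤ L ∧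
        Module.finrank K L = 2 * Module.finrank K M ∧ dsc L ≤ X * D} : ℝ) / X) atTop (𝓝 c) := by
  obtain ⟨c, hc, hlim⟩ := Pool.Agent.U737.MN.lim_SM (H := H) (P := P)
    Pool.Agent.U737.MN.inp.quadLim Pool.Agent.U737.MN.inp.quadPos Pool.Agent.U737.MN.inp.quadUnif
    Pool.Agent.U737.MN.inp.badSmall M hM D hD
  refine ⟨c, hc, hlim, ?_⟩
  have hfd : FiniteDimensional K M := hM.1
  have hnf : NumberField M := nf_of_fd M
  set d : ℝ := dsc M with hd
  have hd1 : 1 ≤ d := Pool.Agent.TH444.ML.one_le_dsc M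
  have hd0 : 0 < d := by linarith
  have hdd : 0 < D / d ^ 2 := by positivity
  have hsub : Tendsto (fun X : ℝ => X * (D / d ^ 2)) atTop atTop :=
    tendsto_id.atTop_mul_const hdd
  have h2 := ((Pool.Agent.U737.MN.inp.badSmall K Ω M).comp hsub).mul_const (D / d ^ 2)
  have h3 := hlim.add h2
  rw [zero_mul, add_zero] at h3
  refine h3.congr' ?_
  filter_upwards [eventually_gt_atTop (0 : ℝ)] with X hX
  have hY : 0 ≤ X * (D / d ^ 2) := by positivity
  have hfin := Pool.Agent.U737.MN.finite_AS' Pool.Agent.U737.MN.inp.quadUnif M (X * (D / d ^ 2)) hY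
  have hun := Pool.Agent.U737.MN.SM_union M hM (X * (D / d ^ 2))
  have hdis := Pool.Agent.U737.MN.SM_disj (H := H) (P := P) M (X * (D / d ^ 2))
  have hXD : X * (D / d ^ 2) * dsc M ^ 2 = X * D := by
    rw [← hd]; field_simp
  rw [hXD] at hun hdis
  have hf1 : (SM H P M (X * D)).Finite := hfin.subset (by rw [← hun]; exact Set.subset_union_left)
  have hf2 : (BM M (X * (D / d ^ 2))).Finite :=
    hfin.subset (by rw [← hun]; exact Set.subset_union_right)
  have hAS : AS M (X * (D / d ^ 2)) = {L : IntermediateField K Ω | M ≤ L ∧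
        Module.finrank K L = 2 * Module.finrank K M ∧ dsc L ≤ X * D} := by
    unfold AS
    rw [hXD]
  have hcard : Set.ncard (SM H P M (X * D)) + Set.ncard (BM M (X * (D / d ^ 2))) =
      Set.ncard {L : IntermediateField K Ω | M ≤ L ∧
        Module.finrank K L = 2 * Module.finrank K M ∧ dsc L ≤ X * D} := by
    rw [← Set.ncard_union_eq hdis hf1 hf2, hun, hAS]
  rw [← hcard]
  simp only [Function.comp]
  have e1 : ∀ a : ℝ, a / (X * (D / d ^ 2)) * (D / d ^ 2) = a / X := by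
    intro a
    have : D / d ^ 2 ≠ 0 := hdd.ne'
    field_simp
  rw [e1]
  have e2 : (Set.ncard {L : IntermediateField K Ω | M ≤ L ∧
      Module.finrank K L = 2 * Module.finrank K M ∧
      nc L ≠ 2 ^ Module.finrank K M * nc M ∧
        dsc L ≤ X * (D / d ^ 2) * dsc M ^ 2} : ℝ) / X =
      (Set.ncard (BM M (X * (D / d ^ 2))) : ℝ) / X := rfl
  rw [e2]
  push_cast
  ring

/-- finitely many `M` -/
theorem sum_le (F : Finset (Gal K Ω H P)) (Z : ℝ) (hfin : (TT K Ω H P Z).Finite) :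
    ∑ M ∈ F, (SM H P M.1 Z).ncard ≤ (TT K Ω H P Z).ncard := by
  classical
  have hsub : ∀ M : Gal K Ω H P, SM H P M.1 Z ⊆ TT K Ω H P Z := by
    intro M
    rw [Pool.Agent.U737.MN.TT_eq Pool.Agent.U737.MN.inp.wrIff]
    exact Set.subset_iUnion (fun M : Gal K Ω H P => SM H P M.1 Z) M
  have hf : ∀ M : Gal K Ω H P, (SM H P M.1 Z).Finite := fun M => hfin.subset (hsub M)
  have h1 : ∑ M ∈ F, (SM H P M.1 Z).ncard = (F.biUnion fun M => (hf M).toFinset).card := by
    rw [Finset.card_biUnion]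
    · exact Finset.sum_congr rfl fun M _ => Set.ncard_eq_toFinset_card _ (hf M)
    · intro M _ M' _ hMM
      simp only [Function.onFun]
      rw [Finset.disjoint_left]
      intro L h1 h2'
      rw [Set.Finite.mem_toFinset] at h1 h2'
      exact hMM (Subtype.ext (Pool.Agent.U737.MN.inp.midUnique K Ω H P L M.1 M'.1 h1.1 h2'.1))
  rw [h1, Set.ncard_eq_toFinset_card _ hfin]
  refine Finset.card_le_card fun L hL => ?_
  rw [Finset.mem_biUnion] at hL
  obtain ⟨M, -, hM⟩ := hL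
  rw [Set.Finite.mem_toFinset] at hM ⊢
  exact hsub M hM

end

/-- the two consequences for the number of the fields up to isomorphism -/
theorem final (K : Type) [Field K] [NumberField K] (H P : Type) [Group H] [Finite H]
    [MulAction H P] [Finite P] [Nonempty P] [MulAction.IsPretransitive H P] [FaithfulSMul H P] {n : ℕ}
    (G : Subgroup (Equiv.Perm (Fin n))) (hG : IsC2Wr H P G) (δ : Gal K (AlgebraicClosure K) H P → ℝ)
    (hδ : ∀ M, 0 < δ M ∧ Tendsto (fun X : ℝ =>
      (Set.ncard (SM H P M.1 (X * ((|discr K| : ℤ) : ℝ) ^ n)) : ℝ) / X) atTop (𝓝 (δ M))) :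
    (∀ (F : Finset (Gal K (AlgebraicClosure K) H P)) (a : ℝ), a < (∑ M ∈ F, δ M) / Nat.card P →
      ∀ᶠ B : ℝ in atTop, a * B ≤
        (Nat.card (Quot (fun L L' : Cnt K G B => Nonempty (L.1 ≃ₐ[K] L'.1))) : ℝ)) ∧
    ∀ C : ℝ, (∃ᶠ B : ℝ in atTop,
      (Nat.card (Quot (fun L L' : Cnt K G B => Nonempty (L.1 ≃ₐ[K] L'.1))) : ℝ) ≤ C * B) →
        Summable δ ∧ ∑' M, δ M ≤ Nat.card P * C := by
  have hn : n = 2 * Nat.card P := Pool.Agent.U737.MN.c2wr_n hG
  have hP : 0 < Nat.card P := Nat.card_pos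
  have hPR : (0 : ℝ) < Nat.card P := by exact_mod_cast hP
  have hn0 : 0 < n := by omega
  have hq : ∀ B : ℝ, (Nat.card (Quot (fun L L' : Cnt K G B => Nonempty (L.1 ≃ₐ[K] L'.1))) : ℝ) *
      Nat.card P = (TT K (AlgebraicClosure K) H P (B * ((|discr K| : ℤ) : ℝ) ^ n)).ncard := by
    intro B
    have hfin := cnt_finite K hn0 G B
    rw [Pool.Agent.U737.MN.cnt_eq K hG] at hfin ⊢
    exact_mod_cast Pool.Agent.U737.MN.quot_TT (K := K) (Ω := AlgebraicClosure K) (H := H) (P := P)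
      Pool.Agent.U737.MN.t_WrConj _ hfin
  have hF : ∀ (F : Finset (Gal K (AlgebraicClosure K) H P)) (B : ℝ),
      ∑ M ∈ F, ((SM H P M.1 (B * ((|discr K| : ℤ) : ℝ) ^ n)).ncard : ℝ) ≤
        (Nat.card (Quot (fun L L' : Cnt K G B => Nonempty (L.1 ≃ₐ[K] L'.1))) : ℝ) * Nat.card P := by
    intro F B
    rw [hq]
    have hfin := cnt_finite K hn0 G B
    rw [Pool.Agent.U737.MN.cnt_eq K hG] at hfin
    exact_mod_cast sum_le F _ hfin
  have hlim : ∀ F : Finset (Gal K (AlgebraicClosure K) H P), Tendsto (fun B : ℝ =>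
      (∑ M ∈ F, ((SM H P M.1 (B * ((|discr K| : ℤ) : ℝ) ^ n)).ncard : ℝ)) / B) atTop
        (𝓝 (∑ M ∈ F, δ M)) := by
    intro F
    have h := tendsto_finset_sum F fun M _ => (hδ M).2
    refine h.congr fun B => ?_
    rw [Finset.sum_div]
  constructor
  · intro F a ha
    rw [lt_div_iff₀ hPR] at ha
    filter_upwards [(hlim F).eventually (lt_mem_nhds ha), eventually_gt_atTop (0 : ℝ)] with B h1 h2
    rw [lt_div_iff₀ h2] at h1
    have h3 := h1.le.trans (hF F B)
    have h4 : a * B * Nat.card P ≤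
        (Nat.card (Quot (fun L L' : Cnt K G B => Nonempty (L.1 ≃ₐ[K] L'.1))) : ℝ) * Nat.card P := by
      calc a * B * Nat.card P = a * Nat.card P * B := by ring
        _ ≤ _ := h3
    exact le_of_mul_le_mul_right h4 hPR
  · intro C hC
    have key : ∀ F : Finset (Gal K (AlgebraicClosure K) H P), ∑ M ∈ F, δ M ≤ Nat.card P * C := by
      intro F
      refine le_of_forall_pos_le_add fun ε hε => ?_
      have h1 := (hlim F).eventually (lt_mem_nhds (show (∑ M ∈ F, δ M) - ε < ∑ M ∈ F, δ M by linarith))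
      obtain ⟨B, hB1, hB2, hB3⟩ := (hC.and_eventually (h1.and (eventually_gt_atTop (0 : ℝ)))).exists
      rw [lt_div_iff₀ hB3] at hB2
      have h4 := hB2.le.trans (hF F B)
      have h5 : (Nat.card (Quot (fun L L' : Cnt K G B => Nonempty (L.1 ≃ₐ[K] L'.1))) : ℝ) *
          Nat.card P ≤ C * B * Nat.card P := mul_le_mul_of_nonneg_right hB1 hPR.le
      have h6 : ((∑ M ∈ F, δ M) - ε) * B ≤ (Nat.card P * C) * B := by
        refine (h4.trans h5).trans (le_of_eq ?_)
        ring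
      have := le_of_mul_le_mul_right h6 hB3
      linarith
    have hs : Summable δ := summable_of_sum_le (fun M => (hδ M).1.le) key
    exact ⟨hs, hs.tsum_le_of_sum_le key⟩

end Pool.Agent.U880.ET
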